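import Mathlib
import Pool.Agent.H71.CondDefs
import Pool.Agent.H71.HallMain

set_option autoImplicit false

namespace Pool.Agent.Results.MP_f5330b_al.NotQIInvariant

open Pool.Agent.H71.Cond

/-- Condensedness is not a quasi-isometry invariant of finitely generated groups. -/
theorem result : ∃ (G H : Type) (_ : Group G) (_ : Group H), Group.FG G ∧ Group.FG H ∧
    QuasiIsometric G H ∧ Condensed G ∧ ¬ Condensed H :=
  ⟨Pool.Agent.H71.Hall.Gam (Pool.Agent.H71.Hall.MJ Pool.Agent.H71.Hall.setI),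
    Pool.Agent.H71.Hall.Gam (Pool.Agent.H71.Hall.MJ Pool.Agent.H71.Hall.setJ),
    inferInstance, inferInstance, Pool.Agent.H71.Hall.fg_Gam _, Pool.Agent.H71.Hall.fg_Gam _,
    Pool.Agent.H71.Hall.qi, Pool.Agent.H71.Hall.condensed_I, Pool.Agent.H71.Hall.not_condensed_J⟩

end Pool.Agent.Results.MP_f5330b_al.NotQIInvariant
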